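import Pool.Agent.NH13.EFinal

/-!
# MP_9cfc0a_nt: no saving in the modulus, for every non-principal character

For every non-principal Dirichlet character, without any hypothesis, the sum of `Λ(n) χ(n)` over
`n ≤ x` has size at least `x ^ (1/2)` times an arbitrarily small negative power of the modulus
somewhere in every window of polynomial length.
-/

set_option autoImplicit false

open MeasureTheory

namespace Pool.Agent.Results.MP_9cfc0a_nt.EveryCharacter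

/-- `ψ(x, χ)`, the sum of `Λ(n) χ(n)` over the positive integers `n ≤ x`. -/
noncomputable def psi {q : ℕ} (χ : DirichletCharacter ℂ q) (x : ℝ) : ℂ :=
  ∑ n ∈ Finset.Icc 1 ⌊x⌋₊, (ArithmeticFunction.vonMangoldt n : ℂ) * χ (n : ZMod q)

/-- (1) For every `ε > 0` there are `A` and `Q₀` such that for every `Q ≥ Q₀`, every non-principal
character `χ` of every modulus `q ≤ Q` and every `X` with `1 ≤ X ≤ Q`: the integral of
`|ψ(x, χ)| x ^ (-3/2)` over `X < x ≤ Q ^ A` is at least `Q ^ (-ε)`, and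
`|ψ(x, χ)| ≥ Q ^ (-ε) x ^ (1/2)` for some `x` with `X < x ≤ Q ^ A`.

(2) For all `θ > 0` and `B` there are `κ > 0` and `A` such that for every `C`, all large moduli `q`,
every non-principal `χ` modulo `q` and every `X` with `1 ≤ X ≤ q ^ B` there is `x` with
`X < x ≤ q ^ A` and `|ψ(x, χ)| > C x ^ (1/2 + κ) q ^ (-θ)`. -/
theorem result :
    (∀ ε : ℝ, 0 < ε → ∃ A Q₀ : ℝ, ∀ q : ℕ, 0 < q → ∀ χ : DirichletCharacter ℂ q, χ ≠ 1 →
      ∀ Q X : ℝ, Q₀ ≤ Q → (q : ℝ) ≤ Q → 1 ≤ X → X ≤ Q →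
        Q ^ (-ε) ≤ ∫ x in Set.Ioc X (Q ^ A), ‖psi χ x‖ * x ^ (-(3 / 2) : ℝ) ∧
        ∃ x : ℝ, X < x ∧ x ≤ Q ^ A ∧ Q ^ (-ε) * Real.sqrt x ≤ ‖psi χ x‖) ∧
    (∀ θ B : ℝ, 0 < θ → ∃ κ A : ℝ, 0 < κ ∧ ∀ C : ℝ, ∃ q₀ : ℕ, ∀ q : ℕ, q₀ ≤ q →
      ∀ χ : DirichletCharacter ℂ q, χ ≠ 1 → ∀ X : ℝ, 1 ≤ X → X ≤ (q : ℝ) ^ B →
        ∃ x : ℝ, X < x ∧ x ≤ (q : ℝ) ^ A ∧
          C * x ^ (1 / 2 + κ) * (q : ℝ) ^ (-θ) < ‖psi χ x‖) := by
  constructor
  · intro ε hε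
    obtain ⟨A, Q₀, -, -, h⟩ := NH13.EC.all_Q ε hε
    refine ⟨A, Q₀, fun q hq χ hχ Q X hQ hqQ hX hXQ => ?_⟩
    have : NeZero q := ⟨hq.ne'⟩
    exact h q χ hχ Q X hQ hqQ hX hXQ
  · intro θ B hθ
    obtain ⟨κ, A, hκ, h⟩ := NH13.EC.no_saving θ (max B 1) hθ (le_max_right _ _)
    refine ⟨κ, A, hκ, fun C => ?_⟩
    obtain ⟨q₀, h⟩ := h C
    refine ⟨max q₀ 1, fun q hq χ hχ X hX hXq => ?_⟩
    have hq1 : 1 ≤ q := (le_max_right _ _).trans hq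
    have : NeZero q := ⟨by omega⟩
    have hq1' : (1 : ℝ) ≤ q := by exact_mod_cast hq1
    exact h q χ ((le_max_left _ _).trans hq) hχ X hX
      (hXq.trans (Real.rpow_le_rpow_of_exponent_le hq1' (le_max_left _ _)))

end Pool.Agent.Results.MP_9cfc0a_nt.EveryCharacter
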