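import Pool.Agent.NH13.WV.Fin3

/-!
# Long averages of the variance of primes in the classes of one modulus and simple zeros

No hypothesis is assumed. `M q δ` is the mean of `V(x, q) / (x log q)` over `x ≥ 1` on the
logarithmic scale, up to about `q ^ (1 / δ)`. Its conjectured size, in the form
`limsup_{q → ∞} M q δ ≤ 1 + ε` for `δ ≤ δ0(ε)`, is equivalent to the generalized Riemann hypothesis
together with the following: for every `ε > 0` there is `A > 0` such that for all large `q` the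
(weighted) number of the pairs of zeros of the `L(s, χ)`, `χ` nonprincipal modulo `q`, at distance at
most `A / log q`, is at most `1 + ε` times the expected number of zeros. It implies that almost all
these zeros are simple.
-/

set_option autoImplicit false

open MeasureTheory Filter Topology Set

namespace Pool.Agent.Results.MP_9cfc0a_nt.LongAverages

/-! ### primes -/

/-- `ψ(x; q, a)`, the sum of `Λ(n)` over the positive integers `n ≤ x` with `n ≡ a mod q`
(used for `0 ≤ a < q`) -/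
noncomputable def psiAP (x : ℝ) (q a : ℕ) : ℝ :=
  ∑ n ∈ (Finset.Icc 1 ⌊x⌋₊).filter (fun n => n % q = a), ArithmeticFunction.vonMangoldt n

/-- the sum of `(ψ(x; q, a) - x / φ(q))²` over the residues `a` prime to `q` -/
noncomputable def V (x : ℝ) (q : ℕ) : ℝ :=
  ∑ a ∈ (Finset.range q).filter (fun a => a.Coprime q), (psiAP x q a - x / q.totient) ^ 2

/-- the mean of `V(x, q) / (x log q)` over `x ≥ 1` with respect to
`(2δ / log q) x ^ (-2δ / log q) dx / x`, a measure of total mass `1`; possibly infinite -/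
noncomputable def M (q : ℕ) (δ : ℝ) : ENNReal :=
  ENNReal.ofReal (2 * δ) * ((∫⁻ x in Ioi (1 : ℝ), ENNReal.ofReal (V x q *
    x ^ (-2 - 2 * δ / Real.log q))) / ENNReal.ofReal (Real.log q ^ 2))

/-- the long means are at most `1 + ε` -/
def LongMeans : Prop := ∀ ε : ℝ, 0 < ε → ∃ δ0 : ℝ, 0 < δ0 ∧ ∀ δ : ℝ, 0 < δ → δ ≤ δ0 →
  ∀ᶠ q : ℕ in atTop, M q δ ≤ ENNReal.ofReal (1 + ε)

/-! ### zeros -/

/-- the generalized Riemann hypothesis: no Dirichlet `L`-function has a zero with `Re s > 1/2`
(`s = 1` is left out because of the pole for the principal characters) -/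
def GRH : Prop := ∀ (q : ℕ) [NeZero q] (χ : DirichletCharacter ℂ q) (s : ℂ),
  1 / 2 < s.re → s ≠ 1 → DirichletCharacter.LFunction χ s ≠ 0

/-- the zeros of `L(s, χ)` with `0 < Re s < 1` -/
def zeros {q : ℕ} [NeZero q] (χ : DirichletCharacter ℂ q) : Set ℂ :=
  {s : ℂ | DirichletCharacter.LFunction χ s = 0 ∧ 0 < s.re ∧ s.re < 1}

/-- the multiplicity of a zero -/
noncomputable def mult {q : ℕ} [NeZero q] (χ : DirichletCharacter ℂ q) (s : ℂ) : ℕ :=
  analyticOrderNatAt (DirichletCharacter.LFunction χ) s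

/-- the number of zeros, with multiplicity, with `|Im s - t| ≤ d` -/
noncomputable def near {q : ℕ} [NeZero q] (χ : DirichletCharacter ℂ q) (d t : ℝ) : ℕ :=
  ∑ᶠ s ∈ {s : ℂ | s ∈ zeros χ ∧ |s.im - t| ≤ d}, mult χ s

/-- the number of pairs of zeros `s, s'`, with multiplicity, with `|Im s - Im s'| ≤ d`, each pair with
the weight `1 / (1/4 + (Im s)²)`; the pairs `(s, s)` are included -/
noncomputable def pairs {q : ℕ} [NeZero q] (χ : DirichletCharacter ℂ q) (d : ℝ) : ℝ :=
  ∑' s : zeros χ, (mult χ s : ℝ) * (near χ d (s : ℂ).im : ℝ) / (1 / 4 + (s : ℂ).im ^ 2)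

/-- the nonprincipal characters modulo `q` -/
noncomputable def nonprincipal (q : ℕ) [NeZero q] : Finset (DirichletCharacter ℂ q) := by
  classical exact Finset.univ.filter (fun χ => χ ≠ 1)

/-- the number of pairs for the modulus `q` at the scale `A / log q`, divided by `φ(q) log q` -/
noncomputable def N (q : ℕ) [NeZero q] (A : ℝ) : ℝ :=
  1 / (Real.log q * q.totient) * ∑ χ ∈ nonprincipal q, pairs χ (A / Real.log q)

/-- at small scales there are hardly more pairs than the pairs `(s, s)` of simple zeros -/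
def FewClosePairs : Prop := ∀ ε : ℝ, 0 < ε → ∃ A : ℝ, 0 < A ∧ ∃ q0 : ℕ, ∀ (q : ℕ) [NeZero q],
  q0 ≤ q → N q A ≤ 1 + ε

/-- the weighted proportion of the multiple zeros tends to zero -/
def AlmostAllSimple : Prop := ∀ ε : ℝ, 0 < ε → ∃ q0 : ℕ, ∀ (q : ℕ) [NeZero q], q0 ≤ q →
  ∑ χ ∈ nonprincipal q, ∑' s : {s : ℂ // s ∈ zeros χ ∧ 2 ≤ mult χ s},
      (mult χ s : ℝ) / (1 / 4 + (s : ℂ).im ^ 2) ≤
    ε * ∑ χ ∈ nonprincipal q, ∑' s : zeros χ, (mult χ s : ℝ) / (1 / 4 + (s : ℂ).im ^ 2)

theorem result : (LongMeans ↔ GRH ∧ FewClosePairs) ∧ (LongMeans → AlmostAllSimple) :=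
  Pool.Agent.NH13.WV.Fin3.main

end Pool.Agent.Results.MP_9cfc0a_nt.LongAverages
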