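import Pool.Agent.NH13.UV.Fin1

/-!
# The mean square of `ψ(x, χ)` for every modulus, with the sharp constant

No hypothesis is assumed. For every large modulus `q` the mean of `|ψ(x, χ)|² / (x log q)` over the
nonprincipal characters modulo `q` and over `x ≥ 1` with the weight
`(2δ / log q) x ^ (-2δ / log q) dx / x` (total mass `1`) is at least `1 - δ - ε`.
-/

set_option autoImplicit false

open MeasureTheory Set

namespace Pool.Agent.Results.MP_9cfc0a_nt.SharpConstantEveryModulus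

/-- `ψ(x, χ)`, the sum of `Λ(n) χ(n)` over the positive integers `n ≤ x` -/
noncomputable def psi {q : ℕ} (χ : DirichletCharacter ℂ q) (x : ℝ) : ℂ :=
  ∑ n ∈ Finset.Icc 1 ⌊x⌋₊, (ArithmeticFunction.vonMangoldt n : ℂ) * χ (n : ZMod q)

/-- the integral of `|ψ(x, χ)|² x ^ (-2 - 2δ / log q)` over `x > 1`, possibly infinite -/
noncomputable def J {q : ℕ} (χ : DirichletCharacter ℂ q) (δ : ℝ) : ENNReal :=
  ∫⁻ x in Ioi (1 : ℝ), ENNReal.ofReal (‖psi χ x‖ ^ 2 * x ^ (-2 - 2 * δ / Real.log q))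

open Classical in
/-- For all `δ, ε > 0` and every modulus `q ≥ q₀(δ, ε)`: the sum over the nonprincipal characters
`χ` modulo `q` of `J χ δ`, multiplied by `2δ / (φ(q) (log q)²)`, is at least `1 - δ - ε`. -/
theorem result (δ ε : ℝ) (hδ : 0 < δ) (hε : 0 < ε) : ∃ q₀ : ℕ, ∀ (q : ℕ) [NeZero q], q₀ ≤ q →
    ENNReal.ofReal (1 - δ - ε) ≤ ENNReal.ofReal (2 * δ / (q.totient * Real.log q ^ 2)) *
      ∑ χ ∈ (Finset.univ : Finset (DirichletCharacter ℂ q)).filter (fun χ => χ ≠ 1), J χ δ := by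
  obtain ⟨q0, h⟩ := Pool.Agent.NH13.UV.Fin1.lower_chars δ (ε / (2 * δ)) hδ (by positivity)
  refine ⟨max q0 2, fun q _ hq => ?_⟩
  have hq2 : 2 ≤ q := (le_max_right _ _).trans hq
  have hL : 0 < Real.log q := Real.log_pos (by exact_mod_cast (by omega : 1 < q))
  have hφ : 0 < (q.totient : ℝ) := by exact_mod_cast Nat.totient_pos.2 (by omega)
  have h1 := h q ((le_max_left _ _).trans hq)
  have hset : (Finset.univ : Finset (DirichletCharacter ℂ q)).filter (fun χ => χ ≠ 1) =
      Pool.Agent.NH13.UV.NT q := by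
    ext χ
    rw [Pool.Agent.NH13.UV.mem_NT]
    simp
  rw [hset]
  calc ENNReal.ofReal (1 - δ - ε) = ENNReal.ofReal (2 * δ / (q.totient * Real.log q ^ 2)) *
        ENNReal.ofReal (((1 / δ - 1) / 2 - ε / (2 * δ)) * (Real.log q ^ 2 * q.totient)) := by
        rw [← ENNReal.ofReal_mul (by positivity)]
        congr 1
        field_simp
    _ ≤ _ := mul_le_mul_right h1 _

end Pool.Agent.Results.MP_9cfc0a_nt.SharpConstantEveryModulus
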