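import Pool.Agent.NH13.Final2

/-!
# Montgomery's conjecture: the true order of magnitude for almost all characters to every modulus

For every modulus `q`, in every window of the variable, all but few of the characters have an
error term `ψ(x, χ)` of the full conjectured order, in mean square and at some point.
No hypothesis is assumed.
-/

set_option autoImplicit false

open MeasureTheory Set

namespace Pool.Agent.Results.MP_9cfc0a_nt.TrueOrderAlmostAllCharacters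

/-- `ψ(x, χ)`, the sum of `Λ(n) χ(n)` over the positive integers `n ≤ x` -/
noncomputable def psi {q : ℕ} (χ : DirichletCharacter ℂ q) (x : ℝ) : ℂ :=
  ∑ n ∈ Finset.Icc 1 ⌊x⌋₊, (ArithmeticFunction.vonMangoldt n : ℂ) * χ (n : ZMod q)

/-- For all positive `A` and `δ` there is `C > 0` such that for every modulus `q ≥ 3` and every
real `U` with `1 ≤ U ≤ log q`, all but at most `C φ(q) / U²` of the characters `χ` modulo `q` have
the following property: for every real `X` with `1 ≤ X ≤ q ^ A`, the integral of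
`|ψ(x, χ)|² / x²` over `X < x ≤ X q ^ (1 + δ)` exceeds `e ^ (- C U) (log q)²`, and
`|ψ(x, χ)| > e ^ (- C U) √(x log q)` for some `x` with `X < x ≤ X q ^ (1 + δ)`. -/
theorem result (A δ : ℝ) (hA : 0 < A) (hδ : 0 < δ) : ∃ C : ℝ, 0 < C ∧
    ∀ q : ℕ, 3 ≤ q → ∀ U : ℝ, 1 ≤ U → U ≤ Real.log q →
    (({χ : DirichletCharacter ℂ q | ¬ ∀ X : ℝ, 1 ≤ X → X ≤ (q : ℝ) ^ A →
      (Real.exp (-(C * U)) * Real.log q ^ 2 <
        ∫ x in Ioc X (X * (q : ℝ) ^ (1 + δ)), ‖psi χ x‖ ^ 2 / x ^ 2) ∧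
      ∃ x ∈ Ioc X (X * (q : ℝ) ^ (1 + δ)),
        Real.exp (-(C * U)) * Real.sqrt (x * Real.log q) < ‖psi χ x‖}.ncard : ℕ) : ℝ) ≤
    C * q.totient / U ^ 2 := by
  obtain ⟨C, hC, h⟩ := Pool.Agent.NH13.sharp_chars A δ hA hδ
  refine ⟨C, hC, ?_⟩
  intro q hq U hU hUℓ
  haveI : NeZero q := ⟨by omega⟩
  refine le_trans ?_ (h q hq U hU hUℓ)
  have hsub : {χ : DirichletCharacter ℂ q | ¬ ∀ X : ℝ, 1 ≤ X → X ≤ (q : ℝ) ^ A →
      (Real.exp (-(C * U)) * Real.log q ^ 2 <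
        ∫ x in Ioc X (X * (q : ℝ) ^ (1 + δ)), ‖psi χ x‖ ^ 2 / x ^ 2) ∧
      ∃ x ∈ Ioc X (X * (q : ℝ) ^ (1 + δ)),
        Real.exp (-(C * U)) * Real.sqrt (x * Real.log q) < ‖psi χ x‖} ⊆
      {χ : DirichletCharacter ℂ q | ∃ X : ℝ, 1 ≤ X ∧ X ≤ (q : ℝ) ^ A ∧
        ((∫ x in Ioc X (X * (q : ℝ) ^ (1 + δ)), ‖Pool.Agent.NH13.psi χ x‖ ^ 2 / x ^ 2 ≤
          Real.exp (-(C * U)) * Real.log q ^ 2) ∨
        ∀ x ∈ Ioc X (X * (q : ℝ) ^ (1 + δ)), ‖Pool.Agent.NH13.psi χ x‖ ≤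
          Real.exp (-(C * U)) * Real.sqrt (x * Real.log q))} := by
    intro χ hχ
    rw [mem_setOf_eq] at hχ ⊢
    push Not at hχ
    obtain ⟨X, h1, h2, h3⟩ := hχ
    refine ⟨X, h1, h2, ?_⟩
    by_cases h4 : Real.exp (-(C * U)) * Real.log q ^ 2 <
        ∫ x in Ioc X (X * (q : ℝ) ^ (1 + δ)), ‖psi χ x‖ ^ 2 / x ^ 2
    · right
      intro x hx
      exact h3 h4 x hx
    · left
      exact not_lt.1 h4
  exact_mod_cast Set.ncard_le_ncard hsub (Set.toFinite _)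

end Pool.Agent.Results.MP_9cfc0a_nt.TrueOrderAlmostAllCharacters
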